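import Mathlib
import Pool.Agent.Helper80.D0Inf

/-!
# A polynomial whose non-solvability region is not a finite union of cylinders

For `f = (s^2 + 2 w^4 - 1)^2 + (z^2 + 2 - w u)^2` the set `C(f)` is not a finite union of basic
open sets of the Cantor space of subrings of `ℚ`.

Sketch: the curve `s^2 = 1 - 2 w^4` has Mordell-Weil group `ℤ P + {O, T}`, `w(P) = 2/3`.  Write
`w(2^i P) = a_i / b_i` in lowest terms, `v_i` a prime factor of `b_i`.  Primes dividing some `b_i`
have `-2` as a quadratic residue; infinitely many primes `t` divide some `a_i` and have `-2` as a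
non-residue.  No point is integral at `v_0, ..., v_(i-1)` and solves the second equation at `t`
(`t ∣ a_i`), while all finite subsets of `{v_j}` admit solutions.
-/

namespace Pool.Agent.Results.MP_d0a72d_lc.NotFiniteUnion

open MvPolynomial

/-- The subring `R_W = ℤ[1/p : p ∈ W]` of `ℚ`; the point `W` of `2^𝒫` is a function
`Nat.Primes → Bool`, with `W p = true` meaning `p ∈ W`. -/
def ringOf (W : Nat.Primes → Bool) : Subring ℚ :=
  Subring.closure {x : ℚ | ∃ p : Nat.Primes, W p = true ∧ x = ((p : ℕ) : ℚ)⁻¹}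

/-- `A(f)`: the set of all `W` such that `f` has a zero with all coordinates in `R_W`. -/
def solvableSet {n : ℕ} (f : MvPolynomial (Fin n) ℤ) : Set (Nat.Primes → Bool) :=
  {W | ∃ a : Fin n → ℚ, (∀ i, a i ∈ ringOf W) ∧ aeval a f = 0}

/-- `C(f)`: the interior (product topology) of the complement of `A(f)`. -/
def nonsolvabilityRegion {n : ℕ} (f : MvPolynomial (Fin n) ℤ) : Set (Nat.Primes → Bool) :=
  interior (solvableSet f)ᶜ

/-- The basic open set `U_{F,G} = {W : F ⊆ W, G ∩ W = ∅}`. -/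
def cylinder (F G : Finset Nat.Primes) : Set (Nat.Primes → Bool) :=
  {W | (∀ p ∈ F, W p = true) ∧ ∀ p ∈ G, W p = false}

/-- `X` is a union of finitely many basic open sets `U_{F,G}`, `F` and `G` finite and disjoint. -/
def IsFiniteUnionOfCylinders (X : Set (Nat.Primes → Bool)) : Prop :=
  ∃ S : Finset (Finset Nat.Primes × Finset Nat.Primes),
    (∀ FG ∈ S, Disjoint FG.1 FG.2) ∧ X = ⋃ FG ∈ S, cylinder FG.1 FG.2

open Pool.Agent.Helper80.D0

theorem norm_le_of_mem {W : Nat.Primes → Bool} {x : ℚ} (hx : x ∈ ringOf W) (p : ℕ) [hp : Fact p.Prime]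
    (hW : W ⟨p, hp.out⟩ = false) : padicNorm p x ≤ 1 := by
  unfold ringOf at hx
  induction hx using Subring.closure_induction with
  | mem x hx =>
    obtain ⟨q, hq, rfl⟩ := hx
    have hne : p ≠ (q : ℕ) := by
      intro h
      have : (⟨p, hp.out⟩ : Nat.Primes) = q := Subtype.ext h
      rw [this, hq] at hW
      exact absurd hW (by decide)
    have : Fact (q : ℕ).Prime := ⟨q.2⟩
    have h1 : padicNorm p ((q : ℕ) : ℚ) = 1 := padicNorm.padicNorm_of_prime_of_ne hne
    rw [inv_eq_one_div, padicNorm.div, padicNorm.one, h1]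
    norm_num
  | zero => simp
  | one => simp
  | add x y _ _ hx hy => exact n_add_le p hx hy
  | neg x _ hx => rw [padicNorm.neg]; exact hx
  | mul x y _ _ hx hy => exact n_mul_le p hx hy

theorem inv_nat_mem (W : Nat.Primes → Bool) (m : ℕ) : m ≠ 0 →
    (∀ q : Nat.Primes, (q : ℕ) ∣ m → W q = true) → (m : ℚ)⁻¹ ∈ ringOf W := by
  induction m using Nat.strong_induction_on with
  | _ m ih =>
    intro hm h
    by_cases h1 : m = 1
    · subst h1; simp
    have hq := Nat.minFac_prime h1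
    obtain ⟨k, hk⟩ := Nat.minFac_dvd m
    have hk0 : k ≠ 0 := by rintro rfl; simp at hk; exact hm hk
    have hkm : k < m := by
      have := hq.two_le
      have h0 : 0 < k := Nat.pos_of_ne_zero hk0
      calc k < 2 * k := by omega
        _ ≤ m.minFac * k := Nat.mul_le_mul_right k this
        _ = m := hk.symm
    have hki : (k : ℚ)⁻¹ ∈ ringOf W :=
      ih k hkm hk0 (fun q hqk => h q (by rw [hk]; exact hqk.mul_left _))
    have hqi : ((m.minFac : ℕ) : ℚ)⁻¹ ∈ ringOf W :=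
      Subring.subset_closure ⟨⟨m.minFac, hq⟩, h ⟨m.minFac, hq⟩ (Nat.minFac_dvd m), rfl⟩
    have e : (m : ℚ)⁻¹ = ((m.minFac : ℕ) : ℚ)⁻¹ * (k : ℚ)⁻¹ := by
      conv_lhs => rw [hk]
      push_cast
      rw [mul_inv]
    rw [e]
    exact (ringOf W).mul_mem hqi hki

theorem int_mem (W : Nat.Primes → Bool) (k : ℤ) : (k : ℚ) ∈ ringOf W := by
  simp

theorem div_mem (W : Nat.Primes → Bool) (k m : ℤ) (hm : m ≠ 0)
    (h : ∀ q : Nat.Primes, ((q : ℕ) : ℤ) ∣ m → W q = true) : (k : ℚ) / (m : ℚ) ∈ ringOf W := by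
  have h1 : ((m.natAbs : ℕ) : ℚ)⁻¹ ∈ ringOf W :=
    inv_nat_mem W m.natAbs (Int.natAbs_ne_zero.mpr hm) (fun q hq => h q (Int.natCast_dvd.mpr hq))
  rcases Int.natAbs_eq m with he | he
  · have e : (k : ℚ) / (m : ℚ) = (k : ℚ) * ((m.natAbs : ℕ) : ℚ)⁻¹ := by
      have hmq : (m : ℚ) = ((m.natAbs : ℤ) : ℚ) := congrArg _ he
      rw [div_eq_mul_inv, hmq, Int.cast_natCast]
    rw [e]
    exact (ringOf W).mul_mem (int_mem W k) h1
  · have hq : (m : ℚ) = -((m.natAbs : ℕ) : ℚ) := by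
      have hmq : (m : ℚ) = ((-(m.natAbs : ℤ) : ℤ) : ℚ) := congrArg _ he
      rw [hmq, Int.cast_neg, Int.cast_natCast]
    have e : (k : ℚ) / (m : ℚ) = (-(k : ℚ)) * ((m.natAbs : ℕ) : ℚ)⁻¹ := by
      rw [hq, div_eq_mul_inv, inv_neg]; ring
    rw [e]
    exact (ringOf W).mul_mem ((ringOf W).neg_mem (int_mem W k)) h1

/-- the polynomial -/
noncomputable def f₀ : MvPolynomial (Fin 4) ℤ :=
  (X 0 ^ 2 + 2 * X 1 ^ 4 - 1) ^ 2 + (X 2 ^ 2 + 2 - X 1 * X 3) ^ 2

theorem aeval_f₀ (a : Fin 4 → ℚ) :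
    aeval a f₀ = (a 0 ^ 2 + 2 * a 1 ^ 4 - 1) ^ 2 + (a 2 ^ 2 + 2 - a 1 * a 3) ^ 2 := by
  simp [f₀]

/-- existence of solutions -/
theorem solvable_of (N : ℕ) (W : Nat.Primes → Bool)
    (hW : ∀ p : Nat.Primes, (∀ j < N, (p : ℕ) ≠ v j) → W p = true) : W ∈ solvableSet f₀ := by
  obtain ⟨z, k, hz⟩ := exists_sq_prod N
  have hb0 : sb N ≠ 0 := by have := sb_ge N; omega
  have hbq : (sb N : ℚ) ≠ 0 := by exact_mod_cast hb0
  have haq : (sa N : ℚ) ≠ 0 := by exact_mod_cast sa_ne N
  have hD0 : (∏ j ∈ Finset.range N, sb j) ≠ 0 :=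
    Finset.prod_ne_zero_iff.mpr (fun j _ => by have := sb_ge j; omega)
  have hC0 : (∏ j ∈ Finset.range N, sc j) ≠ 0 :=
    Finset.prod_ne_zero_iff.mpr (fun j _ => sc_ne j)
  have hbW : ∀ q : Nat.Primes, ((q : ℕ) : ℤ) ∣ sb N → W q = true := by
    intro q hq
    apply hW
    intro j hj he
    have h1 := v_dvd j
    rw [← he] at h1
    exact sab_prime N q q.2 (h1.trans (sb_dvd_sa j N hj)) hq
  refine ⟨![(sc N : ℚ) / (sb N : ℚ) ^ 2, (sa N : ℚ) / sb N, (z : ℚ),
    ((k * sb N : ℤ) : ℚ) / ((2 ^ (N + 1) * ∏ j ∈ Finset.range N, sc j : ℤ) : ℚ)], ?_, ?_⟩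
  · intro i
    fin_cases i
    · have := div_mem W (sc N) (sb N ^ 2) (pow_ne_zero 2 hb0) (fun q hq =>
        hbW q ((Nat.prime_iff_prime_int.mp q.2).dvd_of_dvd_pow hq))
      push_cast at this
      exact this
    · exact div_mem W (sa N) (sb N) hb0 hbW
    · exact int_mem W z
    · apply div_mem W _ _ (mul_ne_zero (by positivity) hC0)
      intro q hq
      apply hW
      intro j hj he
      have hqp := Nat.prime_iff_prime_int.mp q.2
      rcases hqp.dvd_or_dvd hq with h1 | h1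
      · have h2 := hqp.dvd_of_dvd_pow h1
        have h3 : (q : ℕ) ∣ 2 := by exact_mod_cast h2
        have h4 := (Nat.prime_dvd_prime_iff_eq q.2 Nat.prime_two).mp h3
        exact v_ne_two j (by rw [← he]; exact h4)
      · obtain ⟨l, _, hl⟩ := (Prime.dvd_finsetProd_iff hqp _).mp h1
        have h5 := v_dvd j
        rw [← he] at h5
        exact sb_sc_prime j l q q.2 h5 hl
  · rw [aeval_f₀]
    have h1 := sc_rel_Q N
    have e1 : ((sc N : ℚ) / (sb N : ℚ) ^ 2) ^ 2 + 2 * ((sa N : ℚ) / sb N) ^ 4 - 1 = 0 := by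
      rw [h1]; ring
    have e2 : (z : ℚ) ^ 2 + 2 - ((sa N : ℚ) / sb N) *
        (((k * sb N : ℤ) : ℚ) / ((2 ^ (N + 1) * ∏ j ∈ Finset.range N, sc j : ℤ) : ℚ)) = 0 := by
      have h2 : (z : ℚ) ^ 2 + 2 = ((∏ j ∈ Finset.range N, sb j : ℤ) : ℚ) * k := by
        exact_mod_cast hz
      have h3 : (sa N : ℚ) = 2 ^ (N + 1) * ((∏ j ∈ Finset.range N, sb j : ℤ) : ℚ)
          * ((∏ j ∈ Finset.range N, sc j : ℤ) : ℚ) := by
        exact_mod_cast sa_formula N
      have hC0q : ((∏ j ∈ Finset.range N, sc j : ℤ) : ℚ) ≠ 0 := by exact_mod_cast hC0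
      rw [h2, h3, Int.cast_mul, Int.cast_mul]
      have h4 : (((2 ^ (N + 1) : ℤ)) : ℚ) = 2 ^ (N + 1) := by push_cast; rfl
      rw [h4]
      field_simp
      ring
    change (((sc N : ℚ) / (sb N : ℚ) ^ 2) ^ 2 + 2 * ((sa N : ℚ) / sb N) ^ 4 - 1) ^ 2 +
      ((z : ℚ) ^ 2 + 2 - ((sa N : ℚ) / sb N) *
        (((k * sb N : ℤ) : ℚ) / ((2 ^ (N + 1) * ∏ j ∈ Finset.range N, sc j : ℤ) : ℚ))) ^ 2 = 0
    rw [e1, e2]; norm_num

theorem two_adic (i : ℕ) (n : ℤ) : (2 ^ i : ℤ) ∣ n ∨ ∃ j < i, ∃ k : ℤ, n = 2 ^ j * (2 * k + 1) := by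
  induction i with
  | zero => left; simp
  | succ i ih =>
    rcases ih with ⟨m, hm⟩ | ⟨j, hj, k, hk⟩
    · rcases Int.even_or_odd' m with ⟨l, hl | hl⟩
      · left; exact ⟨l, by rw [hm, hl]; ring⟩
      · right; exact ⟨i, Nat.lt_succ_self i, l, by rw [hm, hl]⟩
    · right; exact ⟨j, by omega, k, hk⟩

/-- non-existence of solutions -/
theorem not_solvable (i t : ℕ) (ht : t.Prime) (hti : (t : ℤ) ∣ sa i) (hin : Inert t)
    (W : Nat.Primes → Bool) (hv : ∀ j < i, W ⟨v j, v_prime j⟩ = false) (hWt : W ⟨t, ht⟩ = false) :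
    W ∉ solvableSet f₀ := by
  rintro ⟨a, ha, hf⟩
  rw [aeval_f₀] at hf
  have h1 : a 0 ^ 2 + 2 * a 1 ^ 4 - 1 = 0 := by
    have := sq_nonneg (a 2 ^ 2 + 2 - a 1 * a 3)
    have := sq_nonneg (a 0 ^ 2 + 2 * a 1 ^ 4 - 1)
    have h : (a 0 ^ 2 + 2 * a 1 ^ 4 - 1) ^ 2 = 0 := by linarith
    exact pow_eq_zero_iff two_ne_zero |>.mp h
  have h2 : a 2 ^ 2 + 2 - a 1 * a 3 = 0 := by
    have := sq_nonneg (a 2 ^ 2 + 2 - a 1 * a 3)
    have := sq_nonneg (a 0 ^ 2 + 2 * a 1 ^ 4 - 1)
    have h : (a 2 ^ 2 + 2 - a 1 * a 3) ^ 2 = 0 := by linarith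
    exact pow_eq_zero_iff two_ne_zero |>.mp h
  let pt : Pt := ⟨a 1, a 0, by linarith⟩
  obtain ⟨n, hn⟩ := mordell_weil pt
  have hw : a 1 = (n • P).w ∨ a 1 = -(n • P).w := by
    rcases hn with hn | hn
    · left; rw [← hn]
    · right
      have : pt.w = -(n • P).w := by rw [hn, add_T_w]
      exact this
  rcases two_adic i n with ⟨m, hm⟩ | ⟨j, hj, k, hk⟩
  · -- the prime t
    have : Fact t.Prime := ⟨ht⟩
    have h3 : (2 ^ i : ℤ) • P ∈ K t := by
      rw [mem_K, (two_pow_P i).1, padicNorm.div]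
      have h4 : padicNorm t (sa i) < 1 := (padicNorm.int_lt_one_iff _).mpr hti
      have h5 : padicNorm t (sb i) = 1 := (padicNorm.int_eq_one_iff _).mpr
        (fun h => sab_prime i t ht hti h)
      rw [h5, div_one]; exact h4
    have h4 : n • P ∈ K t := by
      rw [hm, mul_comm, mul_smul]
      exact (K t).zsmul_mem h3 m
    rw [mem_K] at h4
    have h5 : padicNorm t (a 1) < 1 := by
      rcases hw with hw | hw <;> rw [hw]
      · exact h4
      · rw [padicNorm.neg]; exact h4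
    have h6 : padicNorm t (a 3) ≤ 1 := norm_le_of_mem (ha 3) t hWt
    have h7 : padicNorm t (a 2) ≤ 1 := norm_le_of_mem (ha 2) t hWt
    have h8 : padicNorm t (a 2 ^ 2 + 2) < 1 := by
      have : a 2 ^ 2 + 2 = a 1 * a 3 := by linarith
      rw [this]; exact n_mul_lt_left t h5 h6
    -- clear denominators
    have hden : ¬ (t : ℤ) ∣ ((a 2).den : ℤ) := by
      intro hd
      have hd' : t ∣ (a 2).den := by exact_mod_cast hd
      have hnum : ¬ (t : ℤ) ∣ (a 2).num := by
        intro hnn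
        have := (a 2).reduced
        have h9 : t ∣ (a 2).num.natAbs := Int.natCast_dvd.mp hnn
        have h10 := Nat.dvd_gcd h9 hd'
        rw [this] at h10
        exact ht.one_lt.ne' (Nat.dvd_one.mp h10)
      have h11 : padicNorm t ((a 2).den : ℚ) < 1 := (padicNorm.nat_lt_one_iff _).mpr hd'
      have h12 : padicNorm t ((a 2).num : ℚ) = 1 := (padicNorm.int_eq_one_iff _).mpr hnum
      have h13 : padicNorm t ((a 2).num : ℚ) = padicNorm t (a 2) * padicNorm t ((a 2).den : ℚ) := by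
        rw [← padicNorm.mul, Rat.mul_den_eq_num]
      rw [h12] at h13
      nlinarith [padicNorm.nonneg (p := t) (a 2), padicNorm.nonneg (p := t) ((a 2).den : ℚ)]
    apply hin (a 2).num ((a 2).den : ℤ) hden
    rw [← padicNorm.int_lt_one_iff (p := t)]
    have e : (((a 2).num ^ 2 + 2 * ((a 2).den : ℤ) ^ 2 : ℤ) : ℚ) = (a 2 ^ 2 + 2) * ((a 2).den : ℚ) ^ 2 := by
      push_cast
      rw [← Rat.mul_den_eq_num (a 2)]
      ring
    rw [e]
    exact n_mul_lt_left t h8 (n_pow_le t 2 (padicNorm.of_nat _))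
  · -- the prime v j
    have : Fact (v j).Prime := ⟨v_prime j⟩
    have h3 : 1 < padicNorm (v j) ((2 ^ j : ℤ) • P).w := by
      rw [(two_pow_P j).1, padicNorm.div]
      have h4 : padicNorm (v j) (sb j) < 1 := (padicNorm.int_lt_one_iff _).mpr (v_dvd j)
      have h5 : padicNorm (v j) (sa j) = 1 := (padicNorm.int_eq_one_iff _).mpr
        (fun h => sab_prime j (v j) (v_prime j) h (v_dvd j))
      have hb0 : (sb j : ℚ) ≠ 0 := by
        have := sb_ge j
        exact_mod_cast (by omega : sb j ≠ 0)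
      have h6 : 0 < padicNorm (v j) (sb j) :=
        lt_of_le_of_ne (padicNorm.nonneg _) (Ne.symm (padicNorm.nonzero hb0))
      rw [h5]
      exact (one_lt_div h6).mpr h4
    have h4 := odd_mul_pole (v j) (v_ne_two j) _ h3 k
    have h5 : (2 * k + 1) • ((2 ^ j : ℤ) • P) = n • P := by
      rw [← mul_smul, hk, mul_comm]
    rw [h5] at h4
    have h6 : padicNorm (v j) (a 1) ≤ 1 := norm_le_of_mem (ha 1) (v j) (hv j hj)
    rcases hw with hw | hw <;> rw [hw] at h6
    · linarith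
    · rw [padicNorm.neg] at h6; linarith

theorem isOpen_cylinder (F G : Finset Nat.Primes) : IsOpen (cylinder F G) := by
  have e : cylinder F G = (⋂ p ∈ F, (fun W : Nat.Primes → Bool => W p) ⁻¹' {true}) ∩
      (⋂ p ∈ G, (fun W : Nat.Primes → Bool => W p) ⁻¹' {false}) := by
    ext W; simp [cylinder]
  rw [e]
  apply IsOpen.inter
  · exact isOpen_biInter_finset (fun p _ => (isOpen_discrete _).preimage (continuous_apply p))
  · exact isOpen_biInter_finset (fun p _ => (isOpen_discrete _).preimage (continuous_apply p))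

theorem main : ¬ IsFiniteUnionOfCylinders (nonsolvabilityRegion f₀) := by
  classical
  rintro ⟨S, _, hS⟩
  -- the finite set of primes involved
  let E : Finset ℕ := (S.biUnion (fun FG => FG.1 ∪ FG.2)).image (fun p : Nat.Primes => (p : ℕ))
  obtain ⟨i, t, ht, htE, hti, hin⟩ := exists_inert E (by
    intro t ht
    obtain ⟨p, _, rfl⟩ := Finset.mem_image.mp ht
    exact p.2)
  let W : Nat.Primes → Bool := fun p => decide ((∀ j < i, (p : ℕ) ≠ v j) ∧ (p : ℕ) ≠ t)
  let W' : Nat.Primes → Bool := fun p => decide (∀ j < i, (p : ℕ) ≠ v j)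
  let G₀ : Finset Nat.Primes := insert ⟨t, ht⟩ ((Finset.range i).image (fun j => ⟨v j, v_prime j⟩))
  have hWmem : W ∈ nonsolvabilityRegion f₀ := by
    rw [nonsolvabilityRegion, mem_interior]
    refine ⟨cylinder ∅ G₀, ?_, isOpen_cylinder _ _, ?_⟩
    · intro V hV
      apply not_solvable i t ht hti hin V
      · intro j hj
        apply hV.2
        apply Finset.mem_insert_of_mem
        exact Finset.mem_image.mpr ⟨j, Finset.mem_range.mpr hj, rfl⟩
      · apply hV.2
        exact Finset.mem_insert_self _ _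
    · refine ⟨by simp, ?_⟩
      intro p hp
      rcases Finset.mem_insert.mp hp with rfl | hp
      · simp [W]
      · obtain ⟨j, hj, rfl⟩ := Finset.mem_image.mp hp
        simp only [W, decide_eq_false_iff_not, not_and]
        intro h
        exact absurd rfl (h j (Finset.mem_range.mp hj))
  rw [hS] at hWmem
  simp only [Set.mem_iUnion] at hWmem
  obtain ⟨FG, hFG, hW⟩ := hWmem
  have hW' : W' ∈ cylinder FG.1 FG.2 := by
    refine ⟨fun p hp => ?_, fun p hp => ?_⟩
    · have := hW.1 p hp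
      simp only [W, decide_eq_true_eq] at this
      simp only [W', decide_eq_true_eq]
      exact this.1
    · have := hW.2 p hp
      simp only [W, decide_eq_false_iff_not, not_and] at this
      simp only [W', decide_eq_false_iff_not]
      intro h
      apply this h
      intro hpt
      apply htE
      rw [← hpt]
      exact Finset.mem_image.mpr ⟨p, Finset.mem_biUnion.mpr ⟨FG, hFG, Finset.mem_union_right _ hp⟩, rfl⟩
  have hW'C : W' ∈ nonsolvabilityRegion f₀ := by
    rw [hS]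
    exact Set.mem_biUnion hFG hW'
  have hW'n : W' ∉ solvableSet f₀ := interior_subset hW'C
  apply hW'n
  apply solvable_of i W'
  intro p hp
  simp only [W', decide_eq_true_eq]
  exact hp

/-- **Q1 has a negative answer**: for the explicit polynomial
`f = (x₀² + 2 x₁⁴ - 1)² + (x₂² + 2 - x₁ x₃)²` in four variables, the set `C(f)` is not a union of
finitely many basic open sets. -/
theorem result : ¬ IsFiniteUnionOfCylinders (nonsolvabilityRegion
    ((X 0 ^ 2 + 2 * X 1 ^ 4 - 1) ^ 2 + (X 2 ^ 2 + 2 - X 1 * X 3) ^ 2 : MvPolynomial (Fin 4) ℤ)) :=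
  main

end Pool.Agent.Results.MP_d0a72d_lc.NotFiniteUnion
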